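import Mathlib

/-!
# Four layers of a light cone: algebra

Points `u = (k, t, c)`: colour `k : Fin 4`, `t c : F`. The colour gives the vector `v_k = (P k, Q k)` of the
plane; the point gives `(a, b, c)` with `a P k + b Q k + c² = 0`. Two points of different colours are
adjacent if `B(u, w) = a P k' + b Q k' + a' P k + b' Q k + 2 c c' = 0`.
-/

namespace Pool.Agent.H94Q

variable {F : Type*} [Field F]

/-- first coordinates of the four vectors -/
def Pz : Fin 4 → ℤ := ![1, 0, 1, 1]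
/-- second coordinates of the four vectors -/
def Qz : Fin 4 → ℤ := ![0, 1, 1, -1]
/-- the determinants -/
def Dz (i j : Fin 4) : ℤ := Pz i * Qz j - Qz i * Pz j

/-- first coordinate of the vector `v_k` -/
def P (F : Type*) [Field F] (k : Fin 4) : F := (Pz k : F)
/-- second coordinate of the vector `v_k` -/
def Q (F : Type*) [Field F] (k : Fin 4) : F := (Qz k : F)
/-- determinant of `v_i, v_j` -/
def D (F : Type*) [Field F] (i j : Fin 4) : F := P F i * Q F j - Q F i * P F j

/-- first coordinate of a vector `z_k` with `z_k v_k = 1` -/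
def Zz : Fin 4 → ℤ := ![1, 0, 1, 1]
/-- second coordinate of a vector `z_k` with `z_k v_k = 1` -/
def Yz : Fin 4 → ℤ := ![0, 1, 0, 0]

theorem D_cast (i j : Fin 4) : D F i j = ((Dz i j : ℤ) : F) := by
  simp [D, Dz, P, Q]

/-- The properties of the field that are used. -/
structure Gd (F : Type*) [Field F] : Prop where
  sm : ∀ N : ℤ, N ≠ 0 → |N| < 11 → (N : F) ≠ 0
  n1 : ¬ IsSquare (-1 : F)
  n2 : ¬ IsSquare (2 : F)

theorem Gd.two (h : Gd F) : (2 : F) ≠ 0 := by
  have := h.sm 2 (by norm_num) (by norm_num)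
  simpa using this

theorem D_ne (h : Gd F) {i j : Fin 4} (hij : i ≠ j) : D F i j ≠ 0 := by
  rw [D_cast]
  have h1 : ∀ i j : Fin 4, i ≠ j → Dz i j ≠ 0 ∧ |Dz i j| < 11 := by decide
  exact h.sm _ (h1 i j hij).1 (h1 i j hij).2

theorem D_cyc (h : Gd F) {i j k l : Fin 4} (hij : i ≠ j) (hik : i ≠ k) (hil : i ≠ l) (hjk : j ≠ k)
    (hjl : j ≠ l) (hkl : k ≠ l) : ¬ IsSquare (D F k j * D F i k * (D F l j * D F i l)) := by
  have h1 : ∀ i j k l : Fin 4, i ≠ j → i ≠ k → i ≠ l → j ≠ k → j ≠ l → k ≠ l →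
      Dz k j * Dz i k * (Dz l j * Dz i l) = -1 ∨ Dz k j * Dz i k * (Dz l j * Dz i l) = 2 := by
    decide
  rw [D_cast, D_cast, D_cast, D_cast]
  have h2 := h1 i j k l hij hik hil hjk hjl hkl
  rcases h2 with h2 | h2
  · have h3 : ((Dz k j : ℤ) : F) * ((Dz i k : ℤ) : F) * (((Dz l j : ℤ) : F) * ((Dz i l : ℤ) : F)) =
        -1 := by exact_mod_cast congrArg (Int.cast (R := F)) h2
    rw [h3]; exact h.n1
  · have h3 : ((Dz k j : ℤ) : F) * ((Dz i k : ℤ) : F) * (((Dz l j : ℤ) : F) * ((Dz i l : ℤ) : F)) =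
        2 := by exact_mod_cast congrArg (Int.cast (R := F)) h2
    rw [h3]; exact h.n2

theorem D_cr (h : Gd F) {a b c d : Fin 4} (hab : a ≠ b) (hca : c ≠ a) (hcb : c ≠ b) (hda : d ≠ a)
    (hdb : d ≠ b) : D F c a * D F d b ≠ 4 * (D F c b * D F d a) := by
  have h1 : ∀ a b c d : Fin 4, a ≠ b → c ≠ a → c ≠ b → d ≠ a → d ≠ b →
      Dz c a * Dz d b - 4 * (Dz c b * Dz d a) ≠ 0 ∧
        |Dz c a * Dz d b - 4 * (Dz c b * Dz d a)| < 11 := by decide
  have h2 := h1 a b c d hab hca hcb hda hdb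
  have h3 := h.sm _ h2.1 h2.2
  intro h4
  apply h3
  rw [D_cast, D_cast, D_cast, D_cast] at h4
  push_cast
  rw [h4]; ring

/-- A point of the four layers. -/
@[ext] structure Pt (F : Type*) where
  /-- the colour -/
  k : Fin 4
  /-- the parameter on the line -/
  t : F
  /-- the last coordinate -/
  c : F

/-- the first coordinate -/
def Pt.a (u : Pt F) : F := u.t * Q F u.k - u.c ^ 2 * (Zz u.k : F)
/-- the second coordinate -/
def Pt.b (u : Pt F) : F := -u.t * P F u.k - u.c ^ 2 * (Yz u.k : F)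

theorem mem (u : Pt F) : u.a * P F u.k + u.b * Q F u.k + u.c ^ 2 = 0 := by
  have h1 : ∀ k : Fin 4, Zz k * Pz k + Yz k * Qz k = 1 := by decide
  have h2 : (Zz u.k : F) * P F u.k + (Yz u.k : F) * Q F u.k = 1 := by
    rw [P, Q]; exact_mod_cast congrArg (Int.cast (R := F)) (h1 u.k)
  rw [Pt.a, Pt.b]
  linear_combination -(u.c ^ 2) * h2

/-- the bilinear form -/
def Bf (u w : Pt F) : F :=
  u.a * P F w.k + u.b * Q F w.k + w.a * P F u.k + w.b * Q F u.k + 2 * u.c * w.c

theorem Bf_comm (u w : Pt F) : Bf u w = Bf w u := by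
  rw [Bf, Bf]; ring

/-- adjacency of points -/
def Ad (u w : Pt F) : Prop := u.k ≠ w.k ∧ Bf u w = 0

theorem Ad.symm {u w : Pt F} (h : Ad u w) : Ad w u := ⟨h.1.symm, by rw [Bf_comm]; exact h.2⟩

/-- A neighbour of `v` is determined by its colour and its last coordinate. -/
theorem F0 (h : Gd F) {v u u' : Pt F} (h1 : Ad v u) (h2 : Ad v u') (hk : u.k = u'.k)
    (hc : u.c = u'.c) : u = u' := by
  have e1 := h1.2
  have e2 := h2.2
  have hD := D_ne h h1.1
  obtain ⟨k, t, c⟩ := u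
  obtain ⟨k', t', c'⟩ := u'
  simp only at hk hc
  subst hk hc
  have : t = t' := by
    simp only [Bf, Pt.a, Pt.b] at e1 e2
    simp only at hD
    have h3 : (t - t') * D F v.k k = 0 := by
      rw [D]; linear_combination e1 - e2
    rcases mul_eq_zero.1 h3 with h4 | h4
    · exact sub_eq_zero.1 h4
    · exact absurd h4 hD
  rw [this]

theorem P1c (h : Gd F) {u u' z : Pt F} (hne : u ≠ u') (hk : u.k = u'.k) (h1 : Ad u z)
    (h2 : Ad u' z) : u.c ≠ u'.c := fun hc => hne (F0 h h1.symm h2.symm hk hc)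

/-- Two points of the same colour have at most one common neighbour of a given colour. -/
theorem P1 (h : Gd F) {u u' z z' : Pt F} (hne : u ≠ u') (hk : u.k = u'.k) (h1 : Ad u z)
    (h2 : Ad u' z) (h3 : Ad u z') (h4 : Ad u' z') (hz : z.k = z'.k) : z = z' := by
  have hc := P1c h hne hk h1 h2
  have e1 := h1.2
  have e2 := h2.2
  have e3 := h3.2
  have e4 := h4.2
  have h5 : 2 * (u.c - u'.c) * (z.c - z'.c) = 0 := by
    rw [Bf] at e1 e2 e3 e4
    rw [hk] at e1 e3
    rw [hz] at e1 e2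
    linear_combination e1 - e2 - e3 + e4
  have h6 : z.c = z'.c := by
    rcases mul_eq_zero.1 h5 with h7 | h7
    · rcases mul_eq_zero.1 h7 with h8 | h8
      · exact absurd h8 h.two
      · exact absurd (sub_eq_zero.1 h8) hc
    · exact sub_eq_zero.1 h7
  exact F0 h h1 h3 hz h6

/-- the formula for the last coordinate of a common neighbour -/
theorem T {u w z : Pt F} (h1 : Ad u z) (h2 : Ad w z) :
    (D F u.k w.k * z.c - D F z.k w.k * u.c - D F u.k z.k * w.c) ^ 2 =
      D F z.k w.k * D F u.k z.k * Bf u w := by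
  have e2 := h1.2
  have e3 := h2.2
  have e1 := mem z
  have e4 := mem u
  have e5 := mem w
  rw [Bf] at e2 e3 ⊢
  simp only [D]
  linear_combination (P F u.k * Q F w.k - Q F u.k * P F w.k) ^ 2 * e1 -
    (P F u.k * Q F w.k - Q F u.k * P F w.k) * (P F z.k * Q F w.k - Q F z.k * P F w.k) * e2 -
    (P F u.k * Q F w.k - Q F u.k * P F w.k) * (P F u.k * Q F z.k - Q F u.k * P F z.k) * e3 +
    (P F z.k * Q F w.k - Q F z.k * P F w.k) ^ 2 * e4 +
    (P F u.k * Q F z.k - Q F u.k * P F z.k) ^ 2 * e5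

/-- Two points of different colours with common neighbours of two different colours are
adjacent. -/
theorem line (h : Gd F) {u w z z' : Pt F} (hk : u.k ≠ w.k) (h1 : Ad u z) (h2 : Ad w z)
    (h3 : Ad u z') (h4 : Ad w z') (hz : z.k ≠ z'.k) : Ad u w := by
  refine ⟨hk, ?_⟩
  by_contra hB
  apply D_cyc h hk h1.1 h3.1 h2.1 h4.1 hz
  have e1 := T h1 h2
  have e2 := T h3 h4
  set s := D F u.k w.k * z.c - D F z.k w.k * u.c - D F u.k z.k * w.c with hs
  set s' := D F u.k w.k * z'.c - D F z'.k w.k * u.c - D F u.k z'.k * w.c with hs'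
  refine ⟨s * s' / Bf u w, ?_⟩
  have h5 : D F z.k w.k * D F u.k z.k * (D F z'.k w.k * D F u.k z'.k) * Bf u w ^ 2 =
      (s * s') ^ 2 := by
    rw [mul_pow, e1, e2]; ring
  rw [div_mul_div_comm, ← sq, ← sq, ← h5]
  field_simp

/-- the last coordinate of a point on a line -/
theorem lin {u w z : Pt F} (h0 : Ad u w) (h1 : Ad u z) (h2 : Ad w z) :
    D F u.k w.k * z.c = D F z.k w.k * u.c + D F u.k z.k * w.c := by
  have h3 := T h1 h2
  rw [h0.2, mul_zero] at h3
  have h4 := pow_eq_zero_iff (two_ne_zero) |>.1 h3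
  linear_combination h4

theorem uniq (h : Gd F) {u w z z' : Pt F} (h0 : Ad u w) (h1 : Ad u z) (h2 : Ad w z)
    (h3 : Ad u z') (h4 : Ad w z') (hz : z.k = z'.k) : z = z' := by
  have e1 := lin h0 h1 h2
  have e2 := lin h0 h3 h4
  rw [hz] at e1
  exact F0 h h1 h3 hz (mul_left_cancel₀ (D_ne h h0.1) (e1.trans e2.symm))

/-- the sum formula for two common neighbours of the same colour -/
theorem sumf (h : Gd F) {u w z z' : Pt F} (hk : u.k ≠ w.k) (hne : z ≠ z') (hz : z.k = z'.k)
    (h1 : Ad u z) (h2 : Ad w z) (h3 : Ad u z') (h4 : Ad w z') :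
    D F u.k w.k * (z.c + z'.c) = 2 * (D F z.k w.k * u.c + D F u.k z.k * w.c) := by
  have e1 := T h1 h2
  have e2 := T h3 h4
  rw [← hz] at e2
  have h5 : (D F u.k w.k * (z.c - z'.c)) * (D F u.k w.k * (z.c + z'.c) -
      2 * (D F z.k w.k * u.c + D F u.k z.k * w.c)) = 0 := by
    linear_combination e1 - e2
  rcases mul_eq_zero.1 h5 with h6 | h6
  · rcases mul_eq_zero.1 h6 with h7 | h7
    · exact absurd h7 (D_ne h hk)
    · exact absurd (F0 h h1 h3 hz (sub_eq_zero.1 h7)) hne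
  · exact sub_eq_zero.1 h6

/-- Points of different colours have at most two common neighbours. -/
theorem no3 (h : Gd F) {u w z z' z'' : Pt F} (hk : u.k ≠ w.k) (n1 : z ≠ z') (n2 : z ≠ z'')
    (n3 : z' ≠ z'') (h1 : Ad u z) (h2 : Ad w z) (h3 : Ad u z') (h4 : Ad w z') (h5 : Ad u z'')
    (h6 : Ad w z'') : False := by
  by_cases c1 : z.k = z'.k
  · by_cases c2 : z.k = z''.k
    · have e1 := sumf h hk n1 c1 h1 h2 h3 h4
      have e2 := sumf h hk n2 c2 h1 h2 h5 h6
      have e3 : D F u.k w.k * (z'.c - z''.c) = 0 := by linear_combination e1 - e2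
      rcases mul_eq_zero.1 e3 with h7 | h7
      · exact D_ne h hk h7
      · exact n3 (F0 h h3 h5 (c1.symm.trans c2) (sub_eq_zero.1 h7))
    · exact n1 (uniq h (line h hk h1 h2 h5 h6 c2) h1 h2 h3 h4 c1)
  · have h0 := line h hk h1 h2 h3 h4 c1
    by_cases c2 : z.k = z''.k
    · exact n2 (uniq h h0 h1 h2 h5 h6 c2)
    · by_cases c3 : z'.k = z''.k
      · exact n3 (uniq h h0 h3 h4 h5 h6 c3)
      · have a1 := h1.1
        have a2 := h2.1
        have a3 := h3.1
        have a4 := h4.1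
        have a5 := h5.1
        have a6 := h6.1
        omega

end Pool.Agent.H94Q
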