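import Pool.Agent.H94Q.Cube
import Pool.Agent.H2Q.Cube

/-!
# Four layers of a light cone: number of edges, and the extremal number of the cube
-/

namespace Pool.Agent.H94Q

open SimpleGraph Finset

/-- the graph: five layers of `F × F`, the last two of the same colour -/
def gr (F : Type*) [Field F] : SimpleGraph (Fin 5 × F × F) where
  Adj v w := Ad (pr v) (pr w)
  symm := ⟨fun _ _ h => h.symm⟩
  loopless := ⟨fun _ h => h.1 rfl⟩

section

variable {F : Type*} [Field F]

/-- the neighbour of `u` in a given layer with a given last coordinate -/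
noncomputable def nb (u : Pt F) (l : Fin 5) (c : F) : Fin 5 × F × F :=
  (l, -Bf u ⟨col l, 0, c⟩ / D F u.k (col l), c)

theorem Ad_nb (h : Gd F) (u : Pt F) (l : Fin 5) (c : F) (hl : u.k ≠ col l) :
    Ad u (pr (nb u l c)) := by
  refine ⟨hl, ?_⟩
  have hD := D_ne h hl
  have h1 : ∀ t : F, Bf u ⟨col l, t, c⟩ = t * D F u.k (col l) + Bf u ⟨col l, 0, c⟩ := by
    intro t
    simp only [Bf, Pt.a, Pt.b, D]
    ring
  show Bf u ⟨col l, -Bf u ⟨col l, 0, c⟩ / D F u.k (col l), c⟩ = 0
  rw [h1]
  field_simp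
  ring

open Classical in
theorem deg_ge [Fintype F] (h : Gd F) (v : Fin 5 × F × F) :
    (if v.1 < 3 then 4 else 3) * Fintype.card F ≤ (gr F).degree v := by
  have h1 : ∀ l : Fin 5, (if l < 3 then 4 else 3) = (univ.filter fun l' => col l ≠ col l').card := by
    decide
  rw [h1, ← Finset.card_univ, ← Finset.card_product, ← card_neighborFinset_eq_degree]
  apply Finset.card_le_card_of_injOn (fun q : Fin 5 × F => nb (pr v) q.1 q.2)
  · intro q hq
    rw [Finset.mem_coe, Finset.mem_product, Finset.mem_filter] at hq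
    rw [Finset.mem_coe, mem_neighborFinset]
    exact Ad_nb h (pr v) q.1 q.2 hq.1.2
  · intro q _ q' _ e
    have e1 := congrArg Prod.fst e
    have e2 := congrArg (fun z : Fin 5 × F × F => z.2.2) e
    exact Prod.ext e1 e2

open Classical in
theorem edges_ge [Fintype F] (h : Gd F) : 9 * Fintype.card F ^ 3 ≤ (gr F).edgeFinset.card := by
  have h1 := (gr F).sum_degrees_eq_twice_card_edges
  have h2 : ∑ v : Fin 5 × F × F, (if v.1 < 3 then 4 else 3) * Fintype.card F ≤
      ∑ v, (gr F).degree v := Finset.sum_le_sum fun v _ => deg_ge h v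
  have h3 : ∑ v : Fin 5 × F × F, (if v.1 < 3 then 4 else 3) * Fintype.card F =
      18 * Fintype.card F ^ 3 := by
    rw [Fintype.sum_prod_type, Fin.sum_univ_five]
    simp only [show (0 : Fin 5) < 3 by decide, show (1 : Fin 5) < 3 by decide,
      show (2 : Fin 5) < 3 by decide, show ¬ (3 : Fin 5) < 3 by decide,
      show ¬ (4 : Fin 5) < 3 by decide, if_true, if_false, Finset.sum_const, Finset.card_univ,
      Fintype.card_prod, smul_eq_mul]
    ring
  omega

/-- vertices of the cube of even weight -/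
def X : Fin 4 → (Fin 3 → Bool) :=
  ![![false, false, false], ![false, true, true], ![true, false, true], ![true, true, false]]

/-- the antipodes -/
def Y : Fin 4 → (Fin 3 → Bool) :=
  ![![true, true, true], ![true, false, false], ![false, true, false], ![false, false, true]]

theorem XY_adj : ∀ i j : Fin 4, i ≠ j → hammingDist (X i) (Y j) = 1 := by decide

theorem X_inj : Function.Injective X := by unfold Function.Injective; decide
theorem Y_inj : Function.Injective Y := by unfold Function.Injective; decide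
theorem XY_ne : ∀ i : Fin 4, X i ≠ Y i := by decide

/-- no cube in the graph with additional isolated vertices -/
theorem free_map (h : Gd F) {W : Type*} (e : (Fin 5 × F × F) ↪ W) :
    H2Q.cube.Free ((gr F).map e) := by
  rintro ⟨f⟩
  have key : ∀ u w : Fin 3 → Bool, H2Q.cube.Adj u w → ∃ u' w', (gr F).Adj u' w' ∧ e u' = f u ∧
      e w' = f w := by
    intro u w huw
    have := f.toHom.map_adj huw
    exact (SimpleGraph.map_adj _ _ _ _).1 this
  have ex : ∀ i : Fin 4, ∃ u', e u' = f (X i) := by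
    intro i
    obtain ⟨j, hj⟩ : ∃ j : Fin 4, i ≠ j := ⟨i + 1, by revert i; decide⟩
    obtain ⟨u', -, -, h1, -⟩ := key _ _ (XY_adj i j hj)
    exact ⟨u', h1⟩
  have ey : ∀ i : Fin 4, ∃ u', e u' = f (Y i) := by
    intro i
    obtain ⟨j, hj⟩ : ∃ j : Fin 4, i ≠ j := ⟨i + 1, by revert i; decide⟩
    obtain ⟨-, w', -, -, h1⟩ := key _ _ (XY_adj j i hj.symm)
    exact ⟨w', h1⟩
  choose x hx using ex
  choose y hy using ey
  refine nocube h (x := x) (y := y) ?_ ?_ ?_ ?_
  · intro i j hij
    obtain ⟨u', w', h1, h2, h3⟩ := key _ _ (XY_adj i j hij)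
    rw [← hx] at h2
    rw [← hy] at h3
    show Ad (pr (x i)) (pr (y j))
    rw [← e.injective h2, ← e.injective h3]
    exact h1
  · intro i j hij
    have := (hx i).symm.trans ((congrArg e hij).trans (hx j))
    exact X_inj (f.injective this)
  · intro i j hij
    have := (hy i).symm.trans ((congrArg e hij).trans (hy j))
    exact Y_inj (f.injective this)
  · intro i hij
    have := (hx i).symm.trans ((congrArg e hij).trans (hy i))
    exact XY_ne i (f.injective this)

open Classical in
theorem extremal_ge [Fintype F] (h : Gd F) (n : ℕ) (hn : 5 * Fintype.card F ^ 2 ≤ n) :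
    9 * Fintype.card F ^ 3 ≤ extremalNumber n H2Q.cube := by
  have hcard : Fintype.card (Fin 5 × F × F) ≤ Fintype.card (Fin n) := by
    rw [Fintype.card_prod, Fintype.card_prod, Fintype.card_fin, Fintype.card_fin, ← sq]
    exact hn
  obtain ⟨e⟩ := Function.Embedding.nonempty_of_card_le hcard
  have h1 := card_edgeFinset_le_extremalNumber (free_map h e)
  rw [Fintype.card_fin] at h1
  refine (edges_ge h).trans (le_trans (le_of_eq ?_) h1)
  exact (SimpleGraph.card_edgeFinset_map e (gr F)).symm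

end

theorem gd_zmod (p : ℕ) [Fact p.Prime] (h8 : p % 8 = 3) (h11 : 11 ≤ p) : Gd (ZMod p) where
  sm N h0 h1 := by
    intro h2
    rw [ZMod.intCast_zmod_eq_zero_iff_dvd] at h2
    have h3 := Int.le_of_dvd (abs_pos.2 h0) ((dvd_abs _ _).2 h2)
    omega
  n1 := by
    rw [ZMod.exists_sq_eq_neg_one_iff]
    omega
  n2 := by
    rw [ZMod.exists_sq_eq_two_iff (by omega)]
    omega

theorem main_prime (p : ℕ) (hp : p.Prime) (h8 : p % 8 = 3) (h11 : 11 ≤ p) (n : ℕ)
    (hn : 5 * p ^ 2 ≤ n) : 9 * p ^ 3 ≤ extremalNumber n H2Q.cube := by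
  have : Fact p.Prime := ⟨hp⟩
  have h1 := extremal_ge (gd_zmod p h8 h11) n (by rw [ZMod.card]; exact hn)
  rwa [ZMod.card] at h1

theorem main_inf (N : ℕ) : ∃ n ≥ N, 9 * ((n : ℝ) / 5) ^ (3 / 2 : ℝ) ≤
    (extremalNumber n H2Q.cube : ℝ) := by
  have h3 : IsUnit (3 : ZMod 8) := by decide
  obtain ⟨p, hpN, hp, hp8⟩ := Nat.forall_exists_prime_gt_and_eq_mod h3 (max N 11)
  have h8 : p % 8 = 3 := by
    have h1 : ((p : ℕ) : ZMod 8) = ((3 : ℕ) : ZMod 8) := by rw [hp8]; rfl
    rw [ZMod.natCast_eq_natCast_iff] at h1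
    exact h1
  have hN : N ≤ p := ((le_max_left N 11).trans_lt hpN).le
  have h11 : 11 ≤ p := ((le_max_right N 11).trans_lt hpN).le
  refine ⟨5 * p ^ 2, ?_, ?_⟩
  · nlinarith
  · have h1 := main_prime p hp h8 h11 (5 * p ^ 2) le_rfl
    have h2 : (((5 * p ^ 2 : ℕ) : ℝ) / 5) ^ (3 / 2 : ℝ) = (p : ℝ) ^ 3 := by
      push_cast
      rw [mul_div_cancel_left₀ _ (by norm_num : (5 : ℝ) ≠ 0), ← Real.rpow_natCast (p : ℝ) 2,
        ← Real.rpow_mul (Nat.cast_nonneg p)]
      norm_num
    rw [h2]
    exact_mod_cast h1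

end Pool.Agent.H94Q
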