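import Pool.Agent.H94Q.Alg

/-!
# Four layers of a light cone: there is no cube

The cube is `K_{4,4}` minus a perfect matching: `x i ~ y j` for `i ≠ j`.
-/

namespace Pool.Agent.H94Q

variable {F : Type*} [Field F]

/-- a cube in the graph of the points (the points need not be distinct) -/
def Cb (x y : Fin 4 → Pt F) : Prop := ∀ i j, i ≠ j → Ad (x i) (y j)

theorem Cb.symm {x y : Fin 4 → Pt F} (h : Cb x y) : Cb y x := fun i j hij => (h j i hij.symm).symm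

/-- pairwise distinct indices -/
def D4 (i j k l : Fin 4) : Prop := i ≠ j ∧ i ≠ k ∧ i ≠ l ∧ j ≠ k ∧ j ≠ l ∧ k ≠ l

instance (i j k l : Fin 4) : Decidable (D4 i j k l) := by unfold D4; infer_instance

theorem D4.all : ∀ {i j k l : Fin 4}, D4 i j k l → ∀ m, m = i ∨ m = j ∨ m = k ∨ m = l := by
  decide

theorem D4.ex : ∀ i j : Fin 4, i ≠ j → ∃ k l, D4 i j k l := by decide

theorem pig5 (a b c d e : Fin 4) (h1 : a ≠ b) (h2 : a ≠ c) (h3 : a ≠ d) (h4 : a ≠ e) (h5 : b ≠ c)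
    (h6 : b ≠ d) (h7 : b ≠ e) (h8 : c ≠ d) (h9 : c ≠ e) (h10 : d ≠ e) : False := by
  have h : ({a, b, c, d, e} : Finset (Fin 4)).card ≤ 4 :=
    (Finset.card_le_univ _).trans (by simp)
  rw [Finset.card_insert_of_notMem (by simp [h1, h2, h3, h4]),
    Finset.card_insert_of_notMem (by simp [h5, h6, h7]),
    Finset.card_insert_of_notMem (by simp [h8, h9]),
    Finset.card_insert_of_notMem (by simp [h10]), Finset.card_singleton] at h
  omega

theorem al (h : Gd F) {x y : Fin 4 → Pt F} (hc : Cb x y) (hx : Function.Injective x)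
    (hy : Function.Injective y) (i j k l : Fin 4) (hd : D4 i j k l) :
    ¬ ((x i).k = (x j).k ∧ (y k).k = (y l).k) := by
  obtain ⟨h1, h2, h3, h4, h5, h6⟩ := hd
  rintro ⟨e1, e2⟩
  exact hy.ne h6 (P1 h (hx.ne h1) e1 (hc i k h2) (hc j k h4) (hc i l h3) (hc j l h5) e2)

theorem ln (h : Gd F) {x y : Fin 4 → Pt F} (hc : Cb x y) (i j k l : Fin 4) (hd : D4 i j k l)
    (e1 : (x i).k ≠ (x j).k) (e2 : (y k).k ≠ (y l).k) : Ad (x i) (x j) := by
  obtain ⟨h1, h2, h3, h4, h5, h6⟩ := hd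
  exact line h e1 (hc i k h2) (hc j k h4) (hc i l h3) (hc j l h5) e2

theorem ga (h : Gd F) {x y : Fin 4 → Pt F} (hc : Cb x y) (hx : Function.Injective x)
    (hxy : ∀ i, x i ≠ y i) (i j k l : Fin 4) (hd : D4 i j k l) :
    ¬ ((x i).k ≠ (x j).k ∧ (y k).k ≠ (y l).k ∧ (x i).k ≠ (x l).k ∧ (y k).k ≠ (y j).k) := by
  rintro ⟨e1, e2, e3, e4⟩
  have a1 := ln h hc i j k l hd e1 e2
  obtain ⟨h1, h2, h3, h4, h5, h6⟩ := hd
  have a2 := ln h hc i l k j ⟨h3, h2, h1, h6.symm, h5.symm, h4.symm⟩ e3 e4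
  have a3 : Ad (y k) (y l) := line h e2 (hc.symm k i h2.symm) (hc.symm l i h3.symm)
    (hc.symm k j h4.symm) (hc.symm l j h5.symm) e1
  have a4 : Ad (y k) (y j) := line h e4 (hc.symm k i h2.symm) (hc.symm j i h1.symm)
    (hc.symm k l h6) (hc.symm j l h5) e3
  have a0 := hc i k h2
  by_cases c1 : (x j).k = (x l).k
  · exact hx.ne h5 (uniq h a0 a1 (hc j k h4).symm a2 (hc l k h6.symm).symm c1)
  · by_cases c2 : (x j).k = (y j).k
    · exact hxy j (uniq h a0 a1 (hc j k h4).symm (hc i j h1) a4 c2)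
    · have b1 := (hc l j h5.symm).1
      have b2 := (hc j k h4).1
      have b3 := (hc l k h6.symm).1
      have b4 := a0.1
      have b5 := (hc i j h1).1
      exact pig5 (x i).k (y k).k (x j).k (x l).k (y j).k b4 e1 e3 b5 b2.symm b3.symm e4 c1 c2 b1

theorem typeA (h : Gd F) {x y : Fin 4 → Pt F} (hc : Cb x y) (hx : Function.Injective x)
    (hy : Function.Injective y) :
    ¬ ((x 0).k = (x 1).k ∧ (x 1).k = (x 2).k ∧ (x 2).k = (x 3).k) := by
  rintro ⟨e1, e2, e3⟩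
  have a1 := al h hc hx hy 2 3 0 1 (by decide)
  have a2 := al h hc hx hy 1 3 0 2 (by decide)
  have a3 := al h hc hx hy 1 2 0 3 (by decide)
  have a4 := al h hc hx hy 0 3 1 2 (by decide)
  have a5 := al h hc hx hy 0 2 1 3 (by decide)
  have a6 := al h hc hx hy 0 1 2 3 (by decide)
  have b0 := (hc 1 0 (by decide)).1
  have b1 := (hc 0 1 (by decide)).1
  have b2 := (hc 0 2 (by decide)).1
  have b3 := (hc 0 3 (by decide)).1
  exact pig5 (x 0).k (y 0).k (y 1).k (y 2).k (y 3).k (by rw [e1]; exact b0) b1 b2 b3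
    (fun e => a1 ⟨e3, e⟩) (fun e => a2 ⟨e2.trans e3, e⟩) (fun e => a3 ⟨e2, e⟩)
    (fun e => a4 ⟨e1.trans (e2.trans e3), e⟩) (fun e => a5 ⟨e1.trans e2, e⟩)
    (fun e => a6 ⟨e1, e⟩)

theorem typeH (h : Gd F) {x y : Fin 4 → Pt F} (hc : Cb x y) (hx : Function.Injective x)
    (hy : Function.Injective y) (i j k l : Fin 4) (hd : D4 i j k l) :
    ¬ ((x j).k = (x k).k ∧ (x k).k = (x l).k ∧ (y j).k = (y k).k ∧ (y k).k = (y l).k) := by
  rintro ⟨e1, e2, e3, e4⟩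
  have hd' := hd
  obtain ⟨h1, h2, h3, h4, h5, h6⟩ := hd
  have n1 : (x i).k ≠ (x j).k := fun e => al h hc hx hy i j k l hd' ⟨e, e4⟩
  have n2 : (y i).k ≠ (y j).k := fun e => al h hc.symm hy hx i j k l hd' ⟨e, e2⟩
  have n3 : (x j).k ≠ (y j).k := by rw [e3]; exact (hc j k h4).1
  have n4 : (x i).k ≠ (y j).k := (hc i j h1).1
  have n5 : (y i).k ≠ (x j).k := (hc.symm i j h1).1
  -- the sum formulas
  have s1 := sumf h n1 (hy.ne h6) e4 (hc i k h2) (hc j k h4) (hc i l h3) (hc j l h5)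
  have s2 := sumf h (u := x i) (w := x k) (z := y j) (z' := y l) (by rw [← e1]; exact n1)
    (hy.ne h5) (e3.trans e4) (hc i j h1) (hc k j h4.symm) (hc i l h3) (hc k l h6)
  have s3 := sumf h n2 (hx.ne h6) e2 (hc.symm i k h2) (hc.symm j k h4) (hc.symm i l h3)
    (hc.symm j l h5)
  have s4 := sumf h (u := y i) (w := y k) (z := x j) (z' := x l) (by rw [← e3]; exact n2)
    (hx.ne h5) (e1.trans e2) (hc.symm i j h1) (hc.symm k j h4.symm) (hc.symm i l h3)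
    (hc.symm k l h6)
  rw [← e1] at s2 s3
  rw [← e3] at s1 s4
  have t1 : D F (x i).k (x j).k * ((y k).c - (y j).c) =
      2 * (D F (x i).k (y j).k * ((x j).c - (x k).c)) := by linear_combination s1 - s2
  have t2 : D F (y i).k (y j).k * ((x k).c - (x j).c) =
      2 * (D F (y i).k (x j).k * ((y j).c - (y k).c)) := by linear_combination s3 - s4
  have hne : (y k).c - (y j).c ≠ 0 := by
    have := P1c h (hy.ne h4) e3 (hc.symm j i h1.symm) (hc.symm k i h2.symm)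
    exact sub_ne_zero.2 this.symm
  apply D_cr h n3 n1 n4 n5 n2
  apply mul_right_cancel₀ hne
  linear_combination D F (y i).k (y j).k * t1 - 2 * D F (x i).k (y j).k * t2

theorem typeD (h : Gd F) {x y : Fin 4 → Pt F} (hc : Cb x y) (hx : Function.Injective x)
    (hy : Function.Injective y) (i j k l : Fin 4) (hd : D4 i j k l) :
    ¬ ((x i).k = (x k).k ∧ (x j).k = (x l).k ∧ (y i).k = (y l).k ∧ (y j).k = (y k).k ∧
      (x i).k ≠ (x j).k ∧ (y i).k ≠ (y j).k) := by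
  rintro ⟨e1, e2, e3, e4, e5, e6⟩
  have hd' := hd
  obtain ⟨h1, h2, h3, h4, h5, h6⟩ := hd
  have a1 : Ad (x i) (x j) := ln h hc i j k l hd' e5 (by rw [← e3, ← e4]; exact e6.symm)
  have a2 : Ad (x k) (x l) := ln h hc k l i j ⟨h6, h2.symm, h4.symm, h3.symm, h5.symm, h1⟩
    (by rw [← e1, ← e2]; exact e5) e6
  have l1 := lin a1 (hc i k h2) (hc j k h4)
  have l2 := lin a2 (hc k j h4.symm) (hc l j h5.symm)
  have l3 := lin a1 (hc i l h3) (hc j l h5)
  have l4 := lin a2 (hc k i h2.symm) (hc l i h3.symm)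
  have s1 := sumf h (u := x i) (w := x l) (z := y k) (z' := y j) (by rw [← e2]; exact e5)
    (hy.ne h4.symm) e4.symm (hc i k h2) (hc l k h6.symm) (hc i j h1) (hc l j h5.symm)
  have s2 := sumf h (u := x k) (w := x j) (z := y l) (z' := y i) (by rw [← e1]; exact e5)
    (hy.ne h3.symm) e3.symm (hc k l h6) (hc j l h5) (hc k i h2.symm) (hc j i h1.symm)
  rw [← e1, ← e2] at l2 l4
  rw [← e2, ← e4] at s1
  rw [← e1, ← e3] at s2
  rw [← e4] at l1
  rw [← e3] at l3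
  have hne : (x k).c - (x i).c ≠ 0 := by
    have := P1c h (hx.ne h2) e1 (hc i l h3) (hc k l h6)
    exact sub_ne_zero.2 this.symm
  have t1 : D F (y j).k (x j).k * ((x k).c - (x i).c) =
      D F (x i).k (y j).k * ((x l).c - (x j).c) := by linear_combination s1 - l1 - l2
  have t2 : D F (y i).k (x j).k * ((x k).c - (x i).c) =
      D F (x i).k (y i).k * ((x l).c - (x j).c) := by linear_combination l3 + l4 - s2
  have t3 : D F (x i).k (x j).k * D F (y j).k (y i).k * ((x k).c - (x i).c) = 0 := by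
    have t4 : D F (x i).k (x j).k * D F (y j).k (y i).k =
      D F (y j).k (x j).k * D F (x i).k (y i).k - D F (x i).k (y j).k * D F (y i).k (x j).k := by
      simp only [D]; ring
    rw [t4]
    linear_combination D F (x i).k (y i).k * t1 - D F (x i).k (y j).k * t2
  rcases mul_eq_zero.1 t3 with t5 | t5
  · rcases mul_eq_zero.1 t5 with t6 | t6
    · exact D_ne h e5 t6
    · exact D_ne h e6.symm t6
  · exact hne t5

set_option linter.unusedVariables false in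
/-- the combinatorics of the colourings of the cube -/
theorem classP {C : Type*} (X0 X1 X2 X3 Y0 Y1 Y2 Y3 : C)
    (A1 : ¬ (X0 = X1 ∧ X1 = X2 ∧ X2 = X3)) (A2 : ¬ (Y0 = Y1 ∧ Y1 = Y2 ∧ Y2 = Y3))
    (a1 : ¬ (X0 = X1 ∧ Y2 = Y3)) (a2 : ¬ (X0 = X2 ∧ Y1 = Y3)) (a3 : ¬ (X0 = X3 ∧ Y1 = Y2))
    (a4 : ¬ (X1 = X2 ∧ Y0 = Y3)) (a5 : ¬ (X1 = X3 ∧ Y0 = Y2)) (a6 : ¬ (X2 = X3 ∧ Y0 = Y1))
    (g1 : X0 = X1 ∨ Y2 = Y3 ∨ X0 = X2 ∨ Y1 = Y3) (g2 : X0 = X1 ∨ Y2 = Y3 ∨ X0 = X3 ∨ Y1 = Y2)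
    (g3 : X0 = X1 ∨ Y2 = Y3 ∨ X1 = X2 ∨ Y0 = Y3) (g4 : X0 = X1 ∨ Y2 = Y3 ∨ X1 = X3 ∨ Y0 = Y2)
    (g5 : X0 = X2 ∨ Y1 = Y3 ∨ X0 = X3 ∨ Y1 = Y2) (g6 : X0 = X2 ∨ Y1 = Y3 ∨ X1 = X2 ∨ Y0 = Y3)
    (g7 : X0 = X2 ∨ Y1 = Y3 ∨ X2 = X3 ∨ Y0 = Y1) (g8 : X0 = X3 ∨ Y1 = Y2 ∨ X1 = X3 ∨ Y0 = Y2)
    (g9 : X0 = X3 ∨ Y1 = Y2 ∨ X2 = X3 ∨ Y0 = Y1) (g10 : X1 = X2 ∨ Y0 = Y3 ∨ X1 = X3 ∨ Y0 = Y2)
    (g11 : X1 = X2 ∨ Y0 = Y3 ∨ X2 = X3 ∨ Y0 = Y1) (g12 : X1 = X3 ∨ Y0 = Y2 ∨ X2 = X3 ∨ Y0 = Y1)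
    (h1 : ¬ (X0 = X1 ∧ X1 = X2 ∧ Y0 = Y1 ∧ Y1 = Y2)) (h2 : ¬ (X0 = X1 ∧ X1 = X3 ∧ Y0 = Y1 ∧ Y1 = Y3))
    (h3 : ¬ (X0 = X2 ∧ X2 = X3 ∧ Y0 = Y2 ∧ Y2 = Y3)) (h4 : ¬ (X1 = X2 ∧ X2 = X3 ∧ Y1 = Y2 ∧ Y2 = Y3))
    (d1 : ¬ (X0 = X1 ∧ X2 = X3 ∧ Y0 = Y2 ∧ Y1 = Y3)) (d2 : ¬ (X0 = X1 ∧ X2 = X3 ∧ Y0 = Y3 ∧ Y1 = Y2))
    (d3 : ¬ (X0 = X2 ∧ X1 = X3 ∧ Y0 = Y1 ∧ Y2 = Y3)) (d4 : ¬ (X0 = X2 ∧ X1 = X3 ∧ Y0 = Y3 ∧ Y1 = Y2))
    (d5 : ¬ (X0 = X3 ∧ X1 = X2 ∧ Y0 = Y1 ∧ Y2 = Y3)) (d6 : ¬ (X0 = X3 ∧ X1 = X2 ∧ Y0 = Y2 ∧ Y1 = Y3)) :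
    False := by
  grind (splits := 24)

/-- There is no cube with distinct points. -/
theorem notw (h : Gd F) {x y : Fin 4 → Pt F} (hc : Cb x y) (hx : Function.Injective x)
    (hy : Function.Injective y) (hxy : ∀ i, x i ≠ y i) : False := by
  have hga : ∀ i j k l, D4 i j k l → (x i).k = (x j).k ∨ (y k).k = (y l).k ∨ (x i).k = (x l).k ∨
      (y k).k = (y j).k := by
    intro i j k l hd
    by_contra hcon
    push Not at hcon
    exact ga h hc hx hxy i j k l hd hcon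
  have hdd : ∀ i j k l, D4 i j k l → ¬ ((x i).k = (x k).k ∧ (x j).k = (x l).k ∧
      (y i).k = (y l).k ∧ (y j).k = (y k).k) := by
    rintro i j k l hd ⟨e1, e2, e3, e4⟩
    by_cases e5 : (x i).k = (x j).k
    · -- all colours of x agree
      apply typeA h hc hx hy
      have key : ∀ m, (x m).k = (x i).k := by
        intro m
        rcases hd.all m with rfl | rfl | rfl | rfl
        · rfl
        · exact e5.symm
        · exact e1.symm
        · rw [← e2]; exact e5.symm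
      exact ⟨by rw [key 0, key 1], by rw [key 1, key 2], by rw [key 2, key 3]⟩
    · by_cases e6 : (y i).k = (y j).k
      · apply typeA h hc.symm hy hx
        have key : ∀ m, (y m).k = (y i).k := by
          intro m
          rcases hd.all m with rfl | rfl | rfl | rfl
          · rfl
          · exact e6.symm
          · rw [← e4]; exact e6.symm
          · exact e3.symm
        exact ⟨by rw [key 0, key 1], by rw [key 1, key 2], by rw [key 2, key 3]⟩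
      · exact typeD h hc hx hy i j k l hd ⟨e1, e2, e3, e4, e5, e6⟩
  refine classP (x 0).k (x 1).k (x 2).k (x 3).k (y 0).k (y 1).k (y 2).k (y 3).k
    (typeA h hc hx hy) (typeA h hc.symm hy hx)
    (al h hc hx hy 0 1 2 3 (by decide)) (al h hc hx hy 0 2 1 3 (by decide))
    (al h hc hx hy 0 3 1 2 (by decide)) (al h hc hx hy 1 2 0 3 (by decide))
    (al h hc hx hy 1 3 0 2 (by decide)) (al h hc hx hy 2 3 0 1 (by decide))
    ?_ ?_ ?_ ?_ ?_ ?_ ?_ ?_ ?_ ?_ ?_ ?_ ?_ ?_ ?_ ?_ ?_ ?_ ?_ ?_ ?_ ?_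
  · have := hga 0 1 3 2 (by decide); grind
  · have := hga 0 1 2 3 (by decide); grind
  · have := hga 1 0 3 2 (by decide); grind
  · have := hga 1 0 2 3 (by decide); grind
  · have := hga 0 2 1 3 (by decide); grind
  · have := hga 2 0 3 1 (by decide); grind
  · have := hga 2 0 1 3 (by decide); grind
  · have := hga 3 0 2 1 (by decide); grind
  · have := hga 3 0 1 2 (by decide); grind
  · have := hga 1 2 0 3 (by decide); grind
  · have := hga 2 1 0 3 (by decide); grind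
  · have := hga 3 1 0 2 (by decide); grind
  · have := typeH h hc hx hy 3 0 1 2 (by decide); grind
  · have := typeH h hc hx hy 2 0 1 3 (by decide); grind
  · have := typeH h hc hx hy 1 0 2 3 (by decide); grind
  · have := typeH h hc hx hy 0 1 2 3 (by decide); grind
  · have := hdd 0 3 1 2 (by decide); grind
  · have := hdd 0 2 1 3 (by decide); grind
  · have := hdd 0 3 2 1 (by decide); grind
  · have := hdd 0 1 2 3 (by decide); grind
  · have := hdd 0 2 3 1 (by decide); grind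
  · have := hdd 0 1 3 2 (by decide); grind

/-- the colour of a layer: the last colour is used by two layers -/
def col : Fin 5 → Fin 4 := ![0, 1, 2, 3, 3]

/-- the point of a vertex -/
def pr (v : Fin 5 × F × F) : Pt F := ⟨col v.1, v.2.1, v.2.2⟩

omit [Field F] in
theorem pr_inj {v w : Fin 5 × F × F} (h : pr v = pr w) (hk : (pr v).k ≠ 3) : v = w := by
  have h1 : ∀ l l' : Fin 5, col l = col l' → col l ≠ 3 → l = l' := by decide
  have h2 := congrArg Pt.k h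
  have h3 := congrArg Pt.t h
  have h4 := congrArg Pt.c h
  exact Prod.ext (h1 _ _ h2 hk) (Prod.ext h3 h4)

omit [Field F] in
theorem pr_three {u v w : Fin 5 × F × F} (h : pr u = pr v) (h' : pr u = pr w) (n1 : u ≠ v)
    (n2 : u ≠ w) (n3 : v ≠ w) : False := by
  have h1 : ∀ l l' l'' : Fin 5, col l = col l' → col l = col l'' → l = l' ∨ l = l'' ∨ l' = l'' := by
    decide
  have a1 := congrArg Pt.k h
  have a2 := congrArg Pt.t h
  have a3 := congrArg Pt.c h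
  have b1 := congrArg Pt.k h'
  have b2 := congrArg Pt.t h'
  have b3 := congrArg Pt.c h'
  rcases h1 _ _ _ a1 b1 with e | e | e
  · exact n1 (Prod.ext e (Prod.ext a2 a3))
  · exact n2 (Prod.ext e (Prod.ext b2 b3))
  · exact n3 (Prod.ext e (Prod.ext (a2.symm.trans b2) (a3.symm.trans b3)))

theorem tw1 (h : Gd F) {x y : Fin 4 → Fin 5 × F × F}
    (hc : Cb (fun i => pr (x i)) fun i => pr (y i)) (hx : Function.Injective x)
    (hy : Function.Injective y) (i j k l : Fin 4) (hd : D4 i j k l) : pr (x i) ≠ pr (x j) := by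
  intro e
  obtain ⟨h1, h2, h3, h4, h5, h6⟩ := hd
  have h3c : (pr (x i)).k = 3 := by
    by_contra hk
    exact hx.ne h1 (pr_inj e hk)
  have ad : ∀ m, Ad (pr (x i)) (pr (y m)) := by
    intro m
    by_cases hm : m = i
    · rw [e]; exact hc j m (by rw [hm]; exact h1.symm)
    · exact hc i m (Ne.symm hm)
  have yk : ∀ m, (pr (y m)).k ≠ 3 := fun m => by rw [← h3c]; exact (ad m).1.symm
  have yi : ∀ m m', m ≠ m' → pr (y m) ≠ pr (y m') := fun m m' hm e' => hy.ne hm (pr_inj e' (yk m))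
  -- the other two points
  have oth : ∀ m m', m ≠ i → m ≠ j → m' ≠ i → m' ≠ j → m ≠ m' →
      pr (x i) ≠ pr (x m) ∧ (pr (x m)).k = 3 := by
    intro m m' hmi hmj hmi' hmj' hmm
    have n0 : pr (x i) ≠ pr (x m) := fun e' =>
      pr_three e e' (hx.ne h1) (hx.ne (Ne.symm hmi)) (hx.ne (Ne.symm hmj))
    refine ⟨n0, ?_⟩
    by_contra hk
    exact no3 h (u := pr (x i)) (w := pr (x m)) (by rw [h3c]; exact Ne.symm hk)
      (yi i j h1) (yi i m' (Ne.symm hmi')) (yi j m' (Ne.symm hmj')) (ad i) (hc m i hmi)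
      (ad j) (hc m j hmj) (ad m') (hc m m' hmm)
  obtain ⟨nk, ck⟩ := oth k l h2.symm h4.symm h3.symm h5.symm h6
  obtain ⟨nl, -⟩ := oth l k h3.symm h5.symm h2.symm h4.symm h6.symm
  by_cases hkl : pr (x k) = pr (x l)
  · have ad' : ∀ m, Ad (pr (x k)) (pr (y m)) := by
      intro m
      by_cases hm : m = k
      · rw [hkl]; exact hc l m (by rw [hm]; exact h6.symm)
      · exact hc k m (Ne.symm hm)
    have cn : ∀ m m', m ≠ m' → (pr (y m)).k ≠ (pr (y m')).k := fun m m' hm ec =>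
      yi m m' hm (P1 h nk (h3c.trans ck.symm) (ad m) (ad' m) (ad m') (ad' m') ec)
    exact pig5 3 (pr (y 0)).k (pr (y 1)).k (pr (y 2)).k (pr (y 3)).k (yk 0).symm (yk 1).symm
      (yk 2).symm (yk 3).symm (cn 0 1 (by decide)) (cn 0 2 (by decide)) (cn 0 3 (by decide))
      (cn 1 2 (by decide)) (cn 1 3 (by decide)) (cn 2 3 (by decide))
  · have cn : (pr (y i)).k ≠ (pr (y j)).k := fun ec =>
      yi i j h1 (P1 h nk (h3c.trans ck.symm) (ad i) (hc k i h2.symm) (ad j) (hc k j h4.symm) ec)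
    exact no3 h cn nk nl hkl (ad i).symm (ad j).symm (hc k i h2.symm).symm (hc k j h4.symm).symm
      (hc l i h3.symm).symm (hc l j h5.symm).symm

theorem tw2 (h : Gd F) {x y : Fin 4 → Fin 5 × F × F}
    (hc : Cb (fun i => pr (x i)) fun i => pr (y i)) (hx : Function.Injective x)
    (hy : Function.Injective y) (hxy : ∀ i, x i ≠ y i) (i j k l : Fin 4) (hd : D4 i j k l) :
    pr (x i) ≠ pr (y i) := by
  intro e
  obtain ⟨h1, h2, h3, h4, h5, h6⟩ := hd
  have h3c : (pr (x i)).k = 3 := by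
    by_contra hk
    exact hxy i (pr_inj e hk)
  have ady : ∀ m, i ≠ m → Ad (pr (x i)) (pr (y m)) := fun m hm => hc i m hm
  have adx : ∀ m, i ≠ m → Ad (pr (x i)) (pr (x m)) := fun m hm => by
    rw [e]; exact (hc m i (Ne.symm hm)).symm
  have yk : ∀ m, i ≠ m → (pr (y m)).k ≠ 3 := fun m hm => by rw [← h3c]; exact (ady m hm).1.symm
  have xk : ∀ m, i ≠ m → (pr (x m)).k ≠ 3 := fun m hm => by rw [← h3c]; exact (adx m hm).1.symm
  have cn : ∀ m p q, i ≠ m → i ≠ p → i ≠ q → m ≠ p → m ≠ q → p ≠ q →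
      (pr (y p)).k ≠ (pr (y q)).k := by
    intro m p q hm hp hq hmp hmq hpq ec
    exact hy.ne hpq (pr_inj (uniq h (adx m hm) (ady p hp) (hc m p hmp) (ady q hq) (hc m q hmq) ec)
      (yk p hp))
  have c1 := cn j k l h1 h2 h3 h4 h5 h6
  have c2 := cn k j l h2 h1 h3 h4.symm h6 h5
  have c3 := cn l j k h3 h1 h2 h5.symm h6.symm h4
  have a1 : Ad (pr (y k)) (pr (y l)) := line h c1 (ady k h2).symm (ady l h3).symm
    (hc j k h4).symm (hc j l h5).symm (by rw [h3c]; exact (xk j h1).symm)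
  have c4 : (pr (y l)).k = (pr (x l)).k := by
    by_contra hne
    exact pig5 3 (pr (y j)).k (pr (y k)).k (pr (y l)).k (pr (x l)).k (yk j h1).symm (yk k h2).symm
      (yk l h3).symm (xk l h3).symm c3 c2 (hc l j h5.symm).1.symm c1 (hc l k h6.symm).1.symm hne
  have a2 := uniq h (ady k h2) (ady l h3) a1 (adx l h3) (hc l k h6.symm).symm c4
  exact hxy l (pr_inj a2 (yk l h3)).symm

/-- There is no cube. -/
theorem nocube (h : Gd F) {x y : Fin 4 → Fin 5 × F × F}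
    (hc : Cb (fun i => pr (x i)) fun i => pr (y i)) (hx : Function.Injective x)
    (hy : Function.Injective y) (hxy : ∀ i, x i ≠ y i) : False := by
  refine notw h hc ?_ ?_ ?_
  · intro i j hij
    by_contra hne
    obtain ⟨k, l, hd⟩ := D4.ex i j hne
    exact tw1 h hc hx hy i j k l hd hij
  · intro i j hij
    by_contra hne
    obtain ⟨k, l, hd⟩ := D4.ex i j hne
    exact tw1 h hc.symm hy hx i j k l hd hij
  · intro i
    obtain ⟨j, hj⟩ : ∃ j : Fin 4, i ≠ j := ⟨i + 1, by revert i; decide⟩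
    obtain ⟨k, l, hd⟩ := D4.ex i j hj
    exact tw2 h hc hx hy hxy i j k l hd

end Pool.Agent.H94Q
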