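import Pool.Agent.PNT.Main

/-!
# The prime number theorem in arithmetic progressions, and primes in short intervals

Same proof as PNT/Zeta and PNT/Main with Mathlib's `residueClass a` in place of `Λ`.
-/

set_option autoImplicit false

open MeasureTheory Filter Topology

namespace Pool.Agent.H94Q

open ArithmeticFunction ArithmeticFunction.vonMangoldt Pool.Agent.PNT

variable {q : ℕ} (a : ZMod q)

/-- the sum of `Λ n` over the `n ≤ x` in a residue class -/
noncomputable def psiA (x : ℝ) : ℝ := ∑ k ∈ Finset.Icc 1 ⌊x⌋₊, residueClass a k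

theorem psiA_nonneg (x : ℝ) : 0 ≤ psiA a x :=
  Finset.sum_nonneg fun k _ => residueClass_nonneg a k

theorem psiA_mono : Monotone (psiA a) := by
  intro x y hxy
  refine Finset.sum_le_sum_of_subset_of_nonneg ?_ fun k _ _ => residueClass_nonneg a k
  exact Finset.Icc_subset_Icc le_rfl (Nat.floor_mono hxy)

theorem psiA_le_psi (x : ℝ) : psiA a x ≤ Chebyshev.psi x := by
  have h1 : Chebyshev.psi x = ∑ k ∈ Finset.Icc 1 ⌊x⌋₊, ArithmeticFunction.vonMangoldt k := by
    unfold Chebyshev.psi; rfl
  rw [h1]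
  exact Finset.sum_le_sum fun k _ => residueClass_le a k

theorem psiA_le {x : ℝ} (hx : 0 ≤ x) : psiA a x ≤ (Real.log 4 + 4) * x :=
  (psiA_le_psi a x).trans (Chebyshev.psi_le_const_mul_self hx)

private theorem isBigO : (fun n : ℕ => ∑ k ∈ Finset.Icc 1 n, residueClass a k)
    =O[atTop] fun n : ℕ => (n : ℝ) ^ (1 : ℝ) := by
  apply Asymptotics.IsBigO.of_bound (Real.log 4 + 4)
  filter_upwards with n
  have h1 : ∑ k ∈ Finset.Icc 1 n, residueClass a k = psiA a n := by
    unfold psiA
    rw [Nat.floor_natCast]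
  rw [h1, Real.norm_of_nonneg (psiA_nonneg a _), Real.rpow_one,
    Real.norm_of_nonneg (Nat.cast_nonneg n)]
  exact psiA_le a (Nat.cast_nonneg n)

private theorem image_exp : Real.exp '' Set.Ioi 0 = Set.Ioi 1 := by
  ext x
  constructor
  · rintro ⟨t, ht, rfl⟩
    exact Real.one_lt_exp_iff.2 ht
  · intro hx
    have hx' : (1 : ℝ) < x := hx
    exact ⟨Real.log x, Real.log_pos hx', Real.exp_log (by linarith)⟩

private theorem subst_exp (g : ℝ → ℂ) : ∫ x in Set.Ioi (1 : ℝ), g x =
    ∫ t in Set.Ioi (0 : ℝ), (Real.exp t : ℝ) • g (Real.exp t) := by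
  rw [← image_exp, integral_image_eq_integral_abs_deriv_smul measurableSet_Ioi
    (fun x _ => (Real.hasDerivAt_exp x).hasDerivWithinAt) Real.exp_injective.injOn]
  simp only [abs_of_pos (Real.exp_pos _)]

private theorem measurable_psiA : Measurable (fun t : ℝ => psiA a (Real.exp t)) :=
  ((psiA_mono a).comp Real.exp_monotone).measurable

private theorem lap_one {z : ℂ} (hz : 0 < z.re) :
    ∫ t in Set.Ioi (0 : ℝ), Complex.exp (-z * t) = 1 / z := by
  rw [integral_exp_mul_complex_Ioi (by simpa using hz)]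
  simp [neg_div_neg_eq]

private theorem int_one {z : ℂ} (hz : 0 < z.re) :
    IntegrableOn (fun t : ℝ => Complex.exp (-z * t)) (Set.Ioi (0 : ℝ)) :=
  integrableOn_exp_mul_complex_Ioi (by simpa using hz) 0

private theorem int_psi {z : ℂ} (hz : 0 < z.re) :
    IntegrableOn (fun t : ℝ => ((Real.exp (-t) * psiA a (Real.exp t) : ℝ) : ℂ) *
      Complex.exp (-z * t)) (Set.Ioi (0 : ℝ)) := by
  refine Integrable.bdd_mul (c := Real.log 4 + 4) (int_one hz) ?_ ?_
  · apply Measurable.aestronglyMeasurable
    exact Complex.measurable_ofReal.comp ((Real.measurable_exp.comp measurable_neg).mul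
      (measurable_psiA a))
  · filter_upwards with t
    rw [Complex.norm_real, Real.norm_of_nonneg
      (mul_nonneg (Real.exp_pos _).le (psiA_nonneg a _))]
    have h1 := psiA_le a (Real.exp_pos t).le
    calc Real.exp (-t) * psiA a (Real.exp t)
        ≤ Real.exp (-t) * ((Real.log 4 + 4) * Real.exp t) :=
          mul_le_mul_of_nonneg_left h1 (Real.exp_pos _).le
      _ = (Real.log 4 + 4) * (Real.exp (-t) * Real.exp t) := by ring
      _ = Real.log 4 + 4 := by rw [← Real.exp_add]; simp

private theorem lser {z : ℂ} (hz : 0 < z.re) :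
    LSeries (fun n => (residueClass a n : ℂ)) (1 + z) =
      (1 + z) * ∫ t in Set.Ioi (0 : ℝ), ((Real.exp (-t) * psiA a (Real.exp t) : ℝ) : ℂ) *
      Complex.exp (-z * t) := by
  rw [LSeries_eq_mul_integral_of_nonneg (fun n => residueClass a n)
    (r := 1) zero_le_one (s := 1 + z) (by simpa using hz) (isBigO a)
    (fun n => residueClass_nonneg a n)]
  congr 1
  rw [subst_exp]
  apply setIntegral_congr_fun measurableSet_Ioi
  intro t _
  have h1 : (∑ k ∈ Finset.Icc 1 ⌊Real.exp t⌋₊, (residueClass a k : ℂ)) =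
      ((psiA a (Real.exp t) : ℝ) : ℂ) := by
    unfold psiA
    push_cast
    rfl
  have h2 : ((Real.exp t : ℝ) : ℂ) ^ (-(1 + z + 1)) = Complex.exp (-(1 + z + 1) * t) := by
    rw [Complex.cpow_def_of_ne_zero (by exact_mod_cast (Real.exp_pos t).ne'), ← Complex.ofReal_log
      (Real.exp_pos t).le, Real.log_exp]
    congr 1
    ring
  simp only
  rw [h1, h2, Complex.real_smul]
  push_cast
  have h3 : Complex.exp (-(1 + z + 1) * t) = Complex.exp (-(t : ℂ)) * Complex.exp (-(t : ℂ)) *
      Complex.exp (-z * t) := by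
    rw [← Complex.exp_add, ← Complex.exp_add]
    congr 1
    ring
  have h4 : Complex.exp (t : ℂ) * Complex.exp (-(t : ℂ)) = 1 := by
    rw [← Complex.exp_add]
    simp
  rw [h3]
  linear_combination ((psiA a (Real.exp t) : ℝ) : ℂ) * Complex.exp (-(t : ℂ)) *
      Complex.exp (-z * t) * h4

variable [NeZero q]

/-- The function to which the Tauberian theorem is applied. -/
noncomputable def SA (t : ℝ) : ℝ := q.totient * (Real.exp (-t) * psiA a (Real.exp t))

variable {a}

theorem res_int (ha : IsUnit a) : ∃ F : ℂ → ℂ, ContinuousOn F {z | 0 ≤ z.re} ∧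
    ∀ z : ℂ, 0 < z.re →
    F z = ∫ t in Set.Ioi (0 : ℝ), ((SA a t - 1 : ℝ) : ℂ) * Complex.exp (-z * t) := by
  have hφ : (q.totient : ℂ) ≠ 0 := by
    exact_mod_cast (Nat.totient_pos.2 (Nat.pos_of_ne_zero (NeZero.ne q))).ne'
  refine ⟨fun z => (q.totient * LFunctionResidueClassAux a (1 + z) - 1) / (1 + z), ?_, ?_⟩
  · have hne : ∀ z : ℂ, z ∈ {z : ℂ | 0 ≤ z.re} → 1 + z ≠ 0 := by
      intro z hz h
      have hz' : 0 ≤ z.re := hz
      have := congrArg Complex.re h
      simp at this
      linarith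
    refine ContinuousOn.div (ContinuousOn.sub (ContinuousOn.mul continuousOn_const ?_)
      continuousOn_const) (by fun_prop) hne
    have h1 := continuousOn_LFunctionResidueClassAux a
    refine ContinuousOn.comp (t := {s : ℂ | 1 ≤ s.re}) h1 (f := fun z : ℂ => 1 + z)
      (by fun_prop) ?_
    intro z hz
    have hz' : 0 ≤ z.re := hz
    show 1 ≤ (1 + z).re
    simpa using hz'
  · intro z hz
    have hz0 : z ≠ 0 := by
      rintro rfl
      simp at hz
    have hz1 : 1 + z ≠ 0 := by
      intro h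
      have := congrArg Complex.re h
      simp at this
      linarith
    have h1 := eqOn_LFunctionResidueClassAux ha
      (x := 1 + z) (by show 1 < (1 + z).re; simpa using hz)
    have h3 := lser a hz
    have h4 : (∫ t in Set.Ioi (0 : ℝ), ((SA a t - 1 : ℝ) : ℂ) * Complex.exp (-z * t)) =
        q.totient * (∫ t in Set.Ioi (0 : ℝ), ((Real.exp (-t) * psiA a (Real.exp t) : ℝ) : ℂ) *
          Complex.exp (-z * t)) - ∫ t in Set.Ioi (0 : ℝ), Complex.exp (-z * t) := by
      rw [← integral_const_mul, ← integral_sub ((int_psi a hz).const_mul _) (int_one hz)]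
      apply setIntegral_congr_fun measurableSet_Ioi
      intro t _
      simp only [SA]
      push_cast
      ring
    rw [h4, lap_one hz]
    simp only at h1 ⊢
    rw [h1, h3, show (1 : ℂ) + z - 1 = z by ring]
    generalize (∫ t in Set.Ioi (0 : ℝ), ((Real.exp (-t) * psiA a (Real.exp t) : ℝ) : ℂ) *
          Complex.exp (-z * t)) = I
    field_simp
    ring

theorem SA_tendsto (ha : IsUnit a) : Tendsto (SA a) atTop (𝓝 1) := by
  obtain ⟨F, hF, hFS⟩ := res_int ha
  have hmeas : Measurable (SA a) :=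
    ((Real.measurable_exp.comp measurable_neg).mul (measurable_psiA a)).const_mul _
  have hφ : (0 : ℝ) ≤ q.totient := Nat.cast_nonneg _
  have h0 : ∀ t, 0 ≤ SA a t := fun t =>
    mul_nonneg hφ (mul_nonneg (Real.exp_pos _).le (psiA_nonneg a _))
  have hexp : ∀ t, SA a t * Real.exp t = q.totient * psiA a (Real.exp t) := by
    intro t
    unfold SA
    rw [mul_assoc, mul_right_comm (Real.exp (-t)), ← Real.exp_add, neg_add_cancel, Real.exp_zero,
      one_mul]
  have hle : ∀ t, SA a t ≤ q.totient * (Real.log 4 + 4) := by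
    intro t
    have h1 := mul_le_mul_of_nonneg_left (psiA_le a (Real.exp_pos t).le) hφ
    rw [← hexp, ← mul_assoc] at h1
    exact le_of_mul_le_mul_right h1 (Real.exp_pos t)
  refine tauber hmeas h0 hle ?_ ?_
  · intro t u _ htu
    rw [hexp, hexp]
    exact mul_le_mul_of_nonneg_left (psiA_mono a (Real.exp_le_exp.mpr htu)) hφ
  · intro l hl
    have hlog : 0 ≤ Real.log 4 := Real.log_nonneg (by norm_num)
    refine wi_limit (S := fun t => SA a t - 1) (hmeas.sub measurable_const)
      (M := q.totient * (Real.log 4 + 4) + 1) ?_ hF hFS hl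
    intro t
    have h1 := h0 t
    have h2 := hle t
    rw [abs_le]
    constructor <;> nlinarith

theorem pnt_psiA (ha : IsUnit a) :
    Tendsto (fun x : ℝ => q.totient * psiA a x / x) atTop (𝓝 1) := by
  have h1 := (SA_tendsto ha).comp Real.tendsto_log_atTop
  refine h1.congr' ?_
  filter_upwards [eventually_gt_atTop 0] with x hx
  simp only [Function.comp_apply, SA]
  rw [Real.exp_log hx, Real.exp_neg, Real.exp_log hx]
  field_simp

/-- Primes in a residue class in short intervals. -/
theorem primes_short_AP (ha : IsUnit a) {ε : ℝ} (hε : 0 < ε) : ∀ᶠ x : ℝ in atTop,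
    ∃ p : ℕ, p.Prime ∧ (p : ZMod q) = a ∧ x < p ∧ (p : ℝ) ≤ (1 + ε) * x := by
  obtain ⟨C, hC⟩ := Chebyshev.psi_sub_theta_le_mul_sqrt
  have hφ : (0 : ℝ) < q.totient := by
    exact_mod_cast Nat.totient_pos.2 (Nat.pos_of_ne_zero (NeZero.ne q))
  have h1 : Tendsto (fun x : ℝ => (1 + ε) * x) atTop atTop :=
    tendsto_id.const_mul_atTop (by linarith)
  have h2 := ((pnt_psiA ha).comp h1).const_mul (1 + ε)
  have h3 := h2.sub (pnt_psiA ha)
  have h4 : (1 + ε) * 1 - 1 = ε := by ring
  rw [h4] at h3
  -- the prime powers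
  have h5 : Tendsto (fun x : ℝ => q.totient * (C * √((1 + ε) * x)) / x) atTop (𝓝 0) := by
    have h6 : Tendsto (fun x : ℝ => (q.totient * C * √(1 + ε)) * (√x)⁻¹) atTop (𝓝 0) := by
      have h7 := (tendsto_inv_atTop_zero.comp Real.tendsto_sqrt_atTop).const_mul
        (q.totient * C * √(1 + ε))
      rwa [mul_zero] at h7
    refine h6.congr' ?_
    filter_upwards [eventually_gt_atTop 0] with x hx
    have hs : 0 < √x := Real.sqrt_pos.mpr hx
    rw [Real.sqrt_mul (by linarith)]
    have h8 : √x * √x = x := Real.mul_self_sqrt hx.le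
    have h9 : (√x)⁻¹ * x = √x := by
      calc (√x)⁻¹ * x = (√x)⁻¹ * (√x * √x) := by rw [h8]
        _ = √x := by rw [← mul_assoc, inv_mul_cancel₀ hs.ne', one_mul]
    rw [eq_div_iff hx.ne']
    linear_combination (q.totient * C * √(1 + ε)) * h9
  filter_upwards [h3.eventually (lt_mem_nhds (half_lt_self hε)),
    h5.eventually (gt_mem_nhds (half_pos hε)), eventually_gt_atTop 0] with x hx hx5 hx0
  by_contra hn
  push Not at hn
  have h6 : (1 + ε) * (q.totient * psiA a ((1 + ε) * x) / ((1 + ε) * x))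
      = q.totient * psiA a ((1 + ε) * x) / x := by
    have : (1 + ε) ≠ 0 := by positivity
    field_simp
  simp only [Function.comp_apply] at hx
  rw [h6, ← sub_div, ← mul_sub] at hx
  have hxy : x ≤ (1 + ε) * x := by nlinarith
  -- the difference of the two sums
  have h7 : psiA a ((1 + ε) * x) - psiA a x ≤
      Chebyshev.psi ((1 + ε) * x) - Chebyshev.theta ((1 + ε) * x) := by
    have hsub : Finset.Icc 1 ⌊x⌋₊ ⊆ Finset.Icc 1 ⌊(1 + ε) * x⌋₊ :=
      Finset.Icc_subset_Icc le_rfl (Nat.floor_mono hxy)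
    have e1 : psiA a ((1 + ε) * x) - psiA a x =
        ∑ k ∈ Finset.Icc 1 ⌊(1 + ε) * x⌋₊ \ Finset.Icc 1 ⌊x⌋₊, residueClass a k := by
      unfold psiA
      rw [← Finset.sum_sdiff hsub]
      ring
    have e2 : Chebyshev.psi ((1 + ε) * x) - Chebyshev.theta ((1 + ε) * x) =
        ∑ k ∈ (Finset.Icc 1 ⌊(1 + ε) * x⌋₊).filter (fun k => ¬ k.Prime),
          ArithmeticFunction.vonMangoldt k := by
      have e3 : Chebyshev.psi ((1 + ε) * x) = ∑ k ∈ Finset.Icc 1 ⌊(1 + ε) * x⌋₊,
          ArithmeticFunction.vonMangoldt k := by unfold Chebyshev.psi; rfl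
      have e4 : Chebyshev.theta ((1 + ε) * x) =
          ∑ k ∈ (Finset.Icc 1 ⌊(1 + ε) * x⌋₊).filter Nat.Prime,
            ArithmeticFunction.vonMangoldt k := by
        unfold Chebyshev.theta
        refine Finset.sum_congr rfl fun p hp => ?_
        rw [Finset.mem_filter] at hp
        exact (ArithmeticFunction.vonMangoldt_apply_prime hp.2).symm
      rw [e3, e4, ← Finset.sum_filter_add_sum_filter_not (Finset.Icc 1 ⌊(1 + ε) * x⌋₊) Nat.Prime]
      ring
    rw [e1, e2]
    calc ∑ k ∈ Finset.Icc 1 ⌊(1 + ε) * x⌋₊ \ Finset.Icc 1 ⌊x⌋₊, residueClass a k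
        = ∑ k ∈ (Finset.Icc 1 ⌊(1 + ε) * x⌋₊ \ Finset.Icc 1 ⌊x⌋₊).filter
            (fun k => ¬ k.Prime), residueClass a k := by
          symm
          apply Finset.sum_filter_of_ne
          intro k hk hne hp
          rw [Finset.mem_sdiff, Finset.mem_Icc, Finset.mem_Icc, not_and, not_le] at hk
          have hka : (k : ZMod q) = a := by
            by_contra hka
            exact hne (Set.indicator_of_notMem (s := {n : ℕ | (n : ZMod q) = a}) hka _)
          have hkx : x < k := by
            have := hk.2 hk.1.1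
            exact (Nat.floor_lt hx0.le).1 this
          have := hn k hp hka hkx
          have hky : (k : ℝ) ≤ (1 + ε) * x :=
            (Nat.le_floor_iff (by positivity)).mp hk.1.2
          exact absurd hky (not_le.2 this)
      _ ≤ ∑ k ∈ (Finset.Icc 1 ⌊(1 + ε) * x⌋₊).filter (fun k => ¬ k.Prime),
            residueClass a k :=
          Finset.sum_le_sum_of_subset_of_nonneg
            (Finset.filter_subset_filter _ Finset.sdiff_subset)
            fun k _ _ => residueClass_nonneg a k
      _ ≤ _ := Finset.sum_le_sum fun k _ => residueClass_le a k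
  have h8 := h7.trans (hC ((1 + ε) * x))
  have h9 : q.totient * (psiA a ((1 + ε) * x) - psiA a x) / x ≤
      q.totient * (C * √((1 + ε) * x)) / x := by gcongr
  linarith

end Pool.Agent.H94Q
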