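import Pool.Agent.H94Q.Count
import Pool.Agent.H94Q.PntAP

/-!
# The lower bound for all large `n`
-/

namespace Pool.Agent.H94Q

open SimpleGraph Filter Topology

theorem main_lim (c : ℝ) (hc : c < 9 / (5 : ℝ) ^ (3 / 2 : ℝ)) : ∀ᶠ n : ℕ in atTop,
    c * (n : ℝ) ^ (3 / 2 : ℝ) ≤ (extremalNumber n H2Q.cube : ℝ) := by
  rcases le_or_gt c 0 with hc0 | hc0
  · filter_upwards with n
    have h1 : 0 ≤ (n : ℝ) ^ (3 / 2 : ℝ) := Real.rpow_nonneg (Nat.cast_nonneg n) _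
    have h2 : (0 : ℝ) ≤ extremalNumber n H2Q.cube := Nat.cast_nonneg _
    nlinarith
  set K : ℝ := 9 / (5 : ℝ) ^ (3 / 2 : ℝ) with hK
  have h5 : 0 < (5 : ℝ) ^ (3 / 2 : ℝ) := by positivity
  set δ : ℝ := min 1 ((K / c - 1) / 7) with hδ
  have hr : 1 < K / c := by rwa [one_lt_div hc0]
  have hδ0 : 0 < δ := lt_min one_pos (by linarith)
  have hδ1 : δ ≤ 1 := min_le_left _ _
  have hδ2 : 7 * δ ≤ K / c - 1 := by
    have := min_le_right 1 ((K / c - 1) / 7)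
    linarith
  have hδ3 : (1 + δ) ^ 3 ≤ K / c := by nlinarith [mul_pos hδ0 hδ0]
  have hδ4 : c * (1 + δ) ^ 3 ≤ K := by
    rw [le_div_iff₀ hc0] at hδ3
    linarith
  have hx : Tendsto (fun n : ℕ => √((n : ℝ) / 5) / (1 + δ)) atTop atTop := by
    apply Tendsto.atTop_div_const (by linarith)
    apply Real.tendsto_sqrt_atTop.comp
    exact tendsto_natCast_atTop_atTop.atTop_div_const (by norm_num)
  have h3u : IsUnit (3 : ZMod 8) := by decide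
  have hev := hx.eventually (primes_short_AP h3u hδ0)
  filter_upwards [hev, hx.eventually (eventually_ge_atTop 11)] with n hn hn11
  obtain ⟨p, hp, hp8, hxp, hpx⟩ := hn
  have h8 : p % 8 = 3 := by
    have h1 : ((p : ℕ) : ZMod 8) = ((3 : ℕ) : ZMod 8) := by rw [hp8]; rfl
    rw [ZMod.natCast_eq_natCast_iff] at h1
    exact h1
  set x : ℝ := √((n : ℝ) / 5) / (1 + δ) with hxd
  have hp11 : 11 ≤ p := by
    have : (11 : ℝ) ≤ p := hn11.trans hxp.le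
    exact_mod_cast this
  have hx2 : (1 + δ) * x = √((n : ℝ) / 5) := by
    rw [hxd]
    have : (1 + δ) ≠ 0 := by positivity
    field_simp
  rw [hx2] at hpx
  have hn5 : 0 ≤ (n : ℝ) / 5 := by positivity
  have hp5 : 5 * p ^ 2 ≤ n := by
    have h1 : (p : ℝ) ^ 2 ≤ (n : ℝ) / 5 := by
      rw [← Real.sq_sqrt hn5]
      exact pow_le_pow_left₀ (Nat.cast_nonneg p) hpx 2
    have h2 : ((5 * p ^ 2 : ℕ) : ℝ) ≤ (n : ℝ) := by push_cast; linarith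
    exact_mod_cast h2
  have hmain : ((9 * p ^ 3 : ℕ) : ℝ) ≤ (extremalNumber n H2Q.cube : ℝ) := by
    exact_mod_cast main_prime p hp h8 hp11 n hp5
  refine le_trans ?_ hmain
  have hx0 : 0 ≤ x := le_trans (by norm_num) hn11
  have hx3 : x ^ 3 ≤ (p : ℝ) ^ 3 := pow_le_pow_left₀ hx0 hxp.le 3
  have hs3 : √((n : ℝ) / 5) ^ 3 = (n : ℝ) ^ (3 / 2 : ℝ) / (5 : ℝ) ^ (3 / 2 : ℝ) := by
    rw [Real.sqrt_eq_rpow, ← Real.rpow_natCast, ← Real.rpow_mul hn5,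
      ← Real.div_rpow (Nat.cast_nonneg n) (by norm_num)]
    norm_num
  have hx4 : 9 * x ^ 3 * (1 + δ) ^ 3 = K * (n : ℝ) ^ (3 / 2 : ℝ) := by
    have h1 : 9 * x ^ 3 * (1 + δ) ^ 3 = 9 * ((1 + δ) * x) ^ 3 := by ring
    rw [h1, hx2, hs3, hK]
    ring
  have hn0 : 0 ≤ (n : ℝ) ^ (3 / 2 : ℝ) := Real.rpow_nonneg (Nat.cast_nonneg n) _
  have h9 : c * (n : ℝ) ^ (3 / 2 : ℝ) ≤ 9 * x ^ 3 := by
    have h10 : c * (1 + δ) ^ 3 * (n : ℝ) ^ (3 / 2 : ℝ) ≤ 9 * x ^ 3 * (1 + δ) ^ 3 := by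
      rw [hx4]
      exact mul_le_mul_of_nonneg_right hδ4 hn0
    have h11 : 0 < (1 + δ) ^ 3 := by positivity
    have h12 : (c * (n : ℝ) ^ (3 / 2 : ℝ)) * (1 + δ) ^ 3 ≤ 9 * x ^ 3 * (1 + δ) ^ 3 := by
      linarith
    exact le_of_mul_le_mul_right h12 h11
  push_cast
  linarith

end Pool.Agent.H94Q
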